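import Mathlib

set_option autoImplicit false

namespace Pool.Agent.Results.MP_bebd57_nt.Bases

/-- The `b`-elated function: leading base-`b` digit times the sum of the squares of the digits. -/
def E (b a : ℕ) : ℕ := (Nat.digits b a).getLastD 0 * ((Nat.digits b a).map (fun d => d ^ 2)).sum

theorem sq_par (l : List ℕ) : (l.map (fun d => d ^ 2)).sum % 2 = l.sum % 2 := by
  induction l with
  | nil => rfl
  | cons d l ih =>
    simp only [List.map_cons, List.sum_cons]
    have : d ^ 2 % 2 = d % 2 := by
      rw [Nat.pow_mod]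
      rcases Nat.mod_two_eq_zero_or_one d with h | h <;> simp [h]
    omega

theorem even_step (b a : ℕ) (hb : b % 2 = 1) (ha : a % 2 = 0) : E b a % 2 = 0 := by
  have h1 : a % 2 = (Nat.digits b a).sum % 2 := Nat.modEq_digits_sum 2 b hb a
  have h2 := sq_par (Nat.digits b a)
  unfold E
  rw [Nat.mul_mod, h2, ← h1, ha]; simp

/-- If `b > 2` is odd, or `b = a^2 (1 + t^2) - t` with digits `a ≥ 1` and `a t`, then some positive
integer is not `b`-elated. -/
theorem result : ∀ b : ℕ, 2 < b →
    (b % 2 = 1 ∨ ∃ a t : ℕ, 1 ≤ a ∧ a < b ∧ a * t < b ∧ b + t = a ^ 2 * (1 + t ^ 2)) →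
    ∃ x : ℕ, 0 < x ∧ ∀ k : ℕ, (E b)^[k] x ≠ 1 := by
  intro b hb h
  rcases h with h | ⟨a, t, h1, h2, h3, h4⟩
  · refine ⟨2, by norm_num, fun k => ?_⟩
    have : (E b)^[k] 2 % 2 = 0 := by
      induction k with
      | zero => simp
      | succ k ih => rw [Function.iterate_succ_apply']; exact even_step b _ h ih
    omega
  · have hd : Nat.digits b (a * t + b * a) = [a * t, a] := by
      rw [Nat.digits_add b (by omega) (a * t) a h3 (Or.inr (by omega)),
        Nat.digits_of_lt b a (by omega) h2]
    have hfix : E b (a * t + b * a) = a * t + b * a := by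
      unfold E
      rw [hd]
      simp only [List.getLastD_cons, List.getLastD_nil, List.map_cons, List.map_nil, List.sum_cons,
        List.sum_nil]
      have : a * t + b * a = a * (b + t) := by ring
      rw [this, h4]; ring
    have hbig : b ≤ b * a := Nat.le_mul_of_pos_right _ h1
    refine ⟨a * t + b * a, by omega, fun k => ?_⟩
    rw [Function.iterate_fixed hfix]
    omega

end Pool.Agent.Results.MP_bebd57_nt.Bases
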